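import Mathlib
import Pool.Agent.H463R3.PSLn

/-!
# No uniform total `k`-closure of the non-alternating finite simple groups

For `k < n` the groups `PSL(n, q)` and `PGL(n, q)` have the same orbits on `k`-tuples of points of
the projective space of dimension `n - 1` over the field with `q` elements: `k` points lie in a
hyperplane, so a reflection with prescribed determinant fixes all of them. For `q = 3` and `n`
even the two groups differ, so the simple group `PSL(n, 3)` is not totally `k`-closed.
-/

set_option autoImplicit false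

open Matrix
open scoped LinearAlgebra.Projectivization

namespace Pool.Agent.Results.MP_d08dce_al.ProjectiveSpecialLinear

/-- The `k`-closure of (the permutation group induced by) `G` on `Ω`: all permutations `x` of `Ω`
which map every `G`-orbit on the set `Ω ^ k` of ordered `k`-tuples to itself. -/
def kClosure (k : ℕ) (G Ω : Type) [Group G] [MulAction G Ω] : Set (Equiv.Perm Ω) :=
  {x | ∀ ω : Fin k → Ω, (fun i => x (ω i)) ∈ MulAction.orbit G ω}

/-- `G` is totally `k`-closed: in every faithful action on a finite set, every permutation in the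
`k`-closure is induced by an element of `G`. -/
def TotallyKClosed (k : ℕ) (G : Type) [Group G] : Prop :=
  ∀ (Ω : Type) [Finite Ω] [MulAction G Ω] [FaithfulSMul G Ω],
    ∀ x ∈ kClosure k G Ω, ∃ g : G, ∀ ω : Ω, x ω = g • ω

section closure

variable {ι : Type} [Fintype ι] [DecidableEq ι]

/-- the field with three elements -/
abbrev F := ZMod 3

instance : Fact (Nat.Prime 3) := ⟨Nat.prime_three⟩

/-- the reflection `1 - 2 u φᵀ` -/
def refl (u φ : ι → F) : Matrix ι ι F := 1 - (2 : F) • vecMulVec u φ

theorem refl_mulVec (u φ v : ι → F) : refl u φ *ᵥ v = v - (2 * (φ ⬝ᵥ v)) • u := by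
  rw [refl, sub_mulVec, one_mulVec, smul_mulVec, vecMulVec_mulVec]
  congr 1
  ext i
  simp [mul_assoc, mul_comm]

theorem det_refl (u φ : ι → F) (h : φ ⬝ᵥ u = 1) : (refl u φ).det = -1 := by
  have h1 : refl u φ = 1 + replicateCol Unit (-(2 : F) • u) * replicateRow Unit φ := by
    ext i j
    simp [refl, vecMulVec_apply, Matrix.mul_apply, sub_eq_add_neg, mul_assoc]
  rw [h1, det_one_add_replicateCol_mul_replicateRow]
  rw [dotProduct_smul, h]
  decide

omit [DecidableEq ι] in
/-- `k` vectors in a space of larger dimension are annihilated by a nonzero form. -/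
theorem exists_form {k : ℕ} (hk : k < Fintype.card ι) (v : Fin k → ι → F) :
    ∃ φ : ι → F, φ ≠ 0 ∧ ∀ i, φ ⬝ᵥ v i = 0 := by
  let L : (ι → F) →ₗ[F] (Fin k → F) := LinearMap.pi fun i =>
    { toFun := fun φ => φ ⬝ᵥ v i
      map_add' := fun a b => add_dotProduct a b _
      map_smul' := fun c a => by simp }
  have h1 : LinearMap.ker L ≠ ⊥ := by
    apply LinearMap.ker_ne_bot_of_finrank_lt
    simpa using hk
  obtain ⟨φ, hφ, h0⟩ := (Submodule.ne_bot_iff _).1 h1
  refine ⟨φ, h0, fun i => ?_⟩
  exact congrFun (LinearMap.mem_ker.1 hφ) i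

theorem exists_vec (φ : ι → F) (h : φ ≠ 0) : ∃ u : ι → F, φ ⬝ᵥ u = 1 := by
  obtain ⟨i, hi⟩ := Function.ne_iff.1 h
  refine ⟨Pi.single i (φ i)⁻¹, ?_⟩
  rw [dotProduct_single]
  exact mul_inv_cancel₀ hi

/-- the matrix `T` of determinant `-1` as an element of the general linear group -/
noncomputable def toGL (T : Matrix ι ι F) (hT : T.det = -1) : GL ι F :=
  GeneralLinearGroup.mkOfDetNeZero T (by rw [hT]; decide)

/-- A matrix of determinant `-1` preserves all orbits of `PSL` on `k`-tuples of points, if `k`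
is smaller than the size of the matrix. -/
theorem mem_closure {k : ℕ} (hk : k < Fintype.card ι) (T : Matrix ι ι F) (hT : T.det = -1) :
    MulAction.toPerm (toGL T hT) ∈
      kClosure k (ProjectiveSpecialLinearGroup ι F) (ℙ F (ι → F)) := by
  intro ω
  obtain ⟨φ, hφ, h0⟩ := exists_form hk (fun i => (ω i).rep)
  obtain ⟨u, hu⟩ := exists_vec φ hφ
  let g : SpecialLinearGroup ι F := ⟨T * refl u φ, by
    rw [det_mul, hT, det_refl u φ hu]
    decide⟩
  refine ⟨(g : ProjectiveSpecialLinearGroup ι F), ?_⟩
  funext i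
  show (g : ProjectiveSpecialLinearGroup ι F) • ω i = toGL T hT • ω i
  rw [ProjectiveSpecialLinearGroup.smul_proj_mk]
  conv_lhs => rw [← (ω i).mk_rep]
  conv_rhs => rw [← (ω i).mk_rep]
  rw [Projectivization.smul_mk, Projectivization.smul_mk, Projectivization.mk_eq_mk_iff]
  refine ⟨1, ?_⟩
  rw [one_smul]
  show T *ᵥ (ω i).rep = (T * refl u φ) *ᵥ (ω i).rep
  rw [← mulVec_mulVec, refl_mulVec, h0 i]
  simp

/-- A matrix of determinant `-1` does not act on the points as an element of `PSL`, if the
size of the matrix is even. -/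
theorem not_mem_range (hev : Even (Fintype.card ι)) (T : Matrix ι ι F) (hT : T.det = -1)
    (g : ProjectiveSpecialLinearGroup ι F) :
    ¬ ∀ ω : ℙ F (ι → F), MulAction.toPerm (toGL T hT) ω = g • ω := by
  intro h
  obtain ⟨g, rfl⟩ := QuotientGroup.mk_surjective g
  -- `A = g⁻¹ T` fixes all points
  let A : Matrix ι ι F := (g⁻¹ : SpecialLinearGroup ι F).1 * T
  have hA : A.det = -1 := by
    rw [det_mul, hT, (g⁻¹ : SpecialLinearGroup ι F).2, one_mul]
  have hfix : ∀ v : ι → F, v ≠ 0 → ∃ c : F, c • v = A *ᵥ v := by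
    intro v hv
    have h1 := h (Projectivization.mk F v hv)
    have h2 : (g⁻¹ : SpecialLinearGroup ι F) • (toGL T hT • Projectivization.mk F v hv) =
        Projectivization.mk F v hv := by
      have h3 : toGL T hT • Projectivization.mk F v hv = g • Projectivization.mk F v hv := h1
      rw [h3, inv_smul_smul]
    rw [Projectivization.smul_mk, Projectivization.smul_mk, Projectivization.mk_eq_mk_iff'] at h2
    obtain ⟨c, hc⟩ := h2
    refine ⟨c, ?_⟩
    rw [hc]
    show (g⁻¹ : SpecialLinearGroup ι F).1 *ᵥ (T *ᵥ v) = A *ᵥ v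
    rw [mulVec_mulVec]
  obtain ⟨a, ha⟩ := (Matrix.toLin' A).exists_eq_smul_id_of_forall_notLinearIndependent
    fun (v : ι → F) ↦ by
      by_cases hv : v = 0
      · simp [hv, linearIndependent_fin2]
      · obtain ⟨c, hc⟩ := hfix v hv
        rw [LinearIndependent.pair_iff' hv]
        intro h
        exact h c (by rw [hc, toLin'_apply])
  have hscalar : A = Matrix.scalar ι a := calc
      A = LinearMap.toMatrix' (Matrix.toLin' A) := by rw [LinearMap.toMatrix'_toLin']
      _ = (algebraMap F (Module.End F (ι → F)) a).toMatrix' := congrArg LinearMap.toMatrix' ha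
      _ = Matrix.scalar ι a := LinearMap.toMatrix'_algebraMap a
  have h5 : A.det = a ^ Fintype.card ι := by
    rw [hscalar, scalar_apply, det_diagonal]
    simp
  obtain ⟨m, hm⟩ := hev
  rw [hA, hm, ← two_mul, pow_mul] at h5
  have h6 : ∀ b : F, b ^ 2 = 0 ∨ b ^ 2 = 1 := by decide
  rcases h6 a with h7 | h7
  · rw [h7] at h5
    rcases Nat.eq_zero_or_pos m with h8 | h8
    · subst h8
      simp at h5
      exact absurd h5 (by decide)
    · rw [zero_pow h8.ne'] at h5
      exact absurd h5 (by decide)
  · rw [h7, one_pow] at h5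
    exact absurd h5 (by decide)

theorem not_totallyKClosed {k : ℕ} (hk : k < Fintype.card ι) (hev : Even (Fintype.card ι)) :
    ¬ TotallyKClosed k (ProjectiveSpecialLinearGroup ι F) := by
  intro h
  have hne : Nonempty ι := Fintype.card_pos_iff.1 (by omega)
  obtain ⟨i⟩ := hne
  have hdet : (refl (Pi.single i 1) (Pi.single i 1) : Matrix ι ι F).det = -1 :=
    det_refl _ _ (by simp)
  obtain ⟨g, hg⟩ := h (ℙ F (ι → F)) _ (mem_closure hk _ hdet)
  exact not_mem_range hev _ hdet g hg

end closure

section order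

variable (a : ℕ)

/-- the unitriangular matrices with a block `B` in the upper right corner -/
def upper (B : Matrix (Fin a) (Fin a) F) : SpecialLinearGroup (Fin a ⊕ Fin a) F :=
  ⟨fromBlocks 1 B 0 1, by rw [det_fromBlocks_zero₂₁, det_one, mul_one]⟩

theorem upper_mul (B C : Matrix (Fin a) (Fin a) F) : upper a (B + C) = upper a B * upper a C := by
  apply Subtype.ext
  show fromBlocks 1 (B + C) 0 1 = fromBlocks 1 B 0 1 * fromBlocks 1 C 0 1
  rw [fromBlocks_multiply]
  simp [add_comm]

/-- the elementary abelian subgroup of order `3 ^ (a ^ 2)` of `PSL(2 a, 3)` -/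
def upperHom : Multiplicative (Matrix (Fin a) (Fin a) F) →*
    ProjectiveSpecialLinearGroup (Fin a ⊕ Fin a) F :=
  (QuotientGroup.mk' _).comp
    { toFun := fun B => upper a B.toAdd
      map_one' := by
        apply Subtype.ext
        show fromBlocks 1 0 0 1 = 1
        exact fromBlocks_one
      map_mul' := fun B C => upper_mul a _ _ }

theorem upperHom_injective : Function.Injective (upperHom a) := by
  rw [injective_iff_map_eq_one]
  intro B hB
  have h1 : upper a B.toAdd ∈ Subgroup.center (SpecialLinearGroup (Fin a ⊕ Fin a) F) := by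
    rw [← QuotientGroup.eq_one_iff]
    exact hB
  rw [Matrix.SpecialLinearGroup.mem_center_iff] at h1
  obtain ⟨r, -, hr⟩ := h1
  have h2 : B.toAdd = 0 := by
    ext i j
    have h3 := congrFun (congrFun hr (Sum.inl i)) (Sum.inr j)
    simp [upper] at h3
    simpa using h3.symm
  exact h2

theorem pow_dvd_card : 3 ^ (a * a) ∣
    Nat.card (ProjectiveSpecialLinearGroup (Fin a ⊕ Fin a) F) := by
  have h1 := Subgroup.card_dvd_of_injective (upperHom a) (upperHom_injective a)
  have h2 : Nat.card (Multiplicative (Matrix (Fin a) (Fin a) F)) = 3 ^ (a * a) := by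
    rw [Nat.card_congr Multiplicative.toAdd, Matrix, Nat.card_fun, Nat.card_fun]
    simp [← pow_mul]
  rwa [h2] at h1

theorem card_le : Nat.card (ProjectiveSpecialLinearGroup (Fin a ⊕ Fin a) F) ≤
    9 ^ (2 * (a * a)) := by
  have h1 : Nat.card (ProjectiveSpecialLinearGroup (Fin a ⊕ Fin a) F) ≤
      Nat.card (SpecialLinearGroup (Fin a ⊕ Fin a) F) :=
    Nat.card_le_card_of_surjective _ QuotientGroup.mk_surjective
  have h2 : Nat.card (SpecialLinearGroup (Fin a ⊕ Fin a) F) ≤
      Nat.card (Matrix (Fin a ⊕ Fin a) (Fin a ⊕ Fin a) F) :=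
    Nat.card_le_card_of_injective (fun g => g.1) Subtype.val_injective
  have h3 : Nat.card (Matrix (Fin a ⊕ Fin a) (Fin a ⊕ Fin a) F) = 9 ^ (2 * (a * a)) := by
    rw [Matrix, Nat.card_fun, Nat.card_fun]
    simp only [Nat.card_eq_fintype_card, ZMod.card, Fintype.card_sum, Fintype.card_fin]
    rw [show (9 : ℕ) = 3 ^ 2 by norm_num, ← pow_mul, ← pow_mul]
    congr 1
    ring
  omega

theorem factorial_large (m : ℕ) (hm : 32 ≤ m) : 2 * 9 ^ m < m.factorial := by
  induction m, hm using Nat.le_induction with
  | base => decide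
  | succ m hm ih =>
    rw [Nat.factorial_succ, pow_succ]
    nlinarith

/-- `PSL(2 a, 3)` is not isomorphic to an alternating group, for `a ≥ 4`. -/
theorem not_alternating (ha : 4 ≤ a) (m : ℕ) :
    IsEmpty (ProjectiveSpecialLinearGroup (Fin a ⊕ Fin a) F ≃* alternatingGroup (Fin m)) := by
  refine ⟨fun e => ?_⟩
  have hc := Nat.card_congr e.toEquiv
  have h1 : 3 ^ (a * a) ∣ m.factorial := by
    refine (pow_dvd_card a).trans ?_
    rw [hc]
    have h2 := Subgroup.card_subgroup_dvd_card (alternatingGroup (Fin m))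
    rwa [Nat.card_eq_fintype_card (α := Equiv.Perm (Fin m)), Fintype.card_perm,
      Fintype.card_fin] at h2
  have h2 : 2 * (a * a) ≤ m := by
    have h3 : a * a ≤ padicValNat 3 m.factorial :=
      (padicValNat_dvd_iff_le (Nat.factorial_ne_zero m)).1 h1
    have h4 := sub_one_mul_padicValNat_factorial (p := 3) m
    omega
  have h16 : 16 ≤ a * a := Nat.mul_le_mul ha ha
  have hm : 32 ≤ m := by omega
  have : Nontrivial (Fin m) := Fin.nontrivial_iff_two_le.2 (by omega)
  have h5 : 2 * Nat.card (alternatingGroup (Fin m)) = m.factorial := by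
    rw [Nat.card_eq_fintype_card, two_mul_card_alternatingGroup, Fintype.card_perm,
      Fintype.card_fin]
  have h6 := card_le a
  have h7 := factorial_large m hm
  have h8 : 9 ^ (2 * (a * a)) ≤ 9 ^ m := Nat.pow_le_pow_right (by norm_num) h2
  omega

end order

/-- For every `k` there is a finite simple group, not isomorphic to any alternating group, that
is not totally `k`-closed. -/
theorem result : ∀ k : ℕ, ∃ (G : Type) (_ : Group G), Finite G ∧ IsSimpleGroup G ∧
    (∀ m : ℕ, IsEmpty (G ≃* alternatingGroup (Fin m))) ∧ ¬ TotallyKClosed k G := by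
  intro k
  have hcard : Fintype.card (Fin (k + 4) ⊕ Fin (k + 4)) = 2 * (k + 4) := by
    simp [two_mul]
  refine ⟨ProjectiveSpecialLinearGroup (Fin (k + 4) ⊕ Fin (k + 4)) F, inferInstance,
    inferInstance, ?_, not_alternating (k + 4) (by omega), ?_⟩
  · exact Pool.Agent.H463R3.PSLn.isSimpleGroup_PSL (by omega)
  · exact not_totallyKClosed (by omega) (by rw [hcard]; exact even_two_mul _)

end Pool.Agent.Results.MP_d08dce_al.ProjectiveSpecialLinear
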